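import Mathlib
import Pool.Agent.X201.RA.Axis

/-!
# Gluing rational homomorphisms of vertex stabilizers

A group `H` acts on a tree. A function `ρ` on the elements which fix vertices, invariant under conjugation and
additive on vertex stabilizers, extends to a homomorphism `H → ℚ`.
-/

set_option autoImplicit false

namespace Pool.Agent.X265.GBS

open SimpleGraph

section pot

variable {V : Type} {T : SimpleGraph V}

/-- antisymmetric functions on the edges of a tree have potentials -/
theorem exists_pot (hT : T.IsTree) (t : V → V → ℚ) (ht : ∀ u v, t u v = - t v u) :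
    ∃ P : V → ℚ, ∀ u v, T.Adj u v → P v = P u + t u v := by
  classical
  obtain ⟨o⟩ := hT.connected.nonempty
  have hpar : ∀ v : V, ∃ w : V, v ≠ o → T.Adj w v ∧ T.dist o w + 1 = T.dist o v := by
    intro v
    by_cases hv : v = o
    · exact ⟨v, fun h => absurd hv h⟩
    · obtain ⟨q, hq⟩ := hT.connected.exists_walk_length_eq_dist o v
      have hn : ¬ q.Nil := fun h => hv h.eq.symm
      refine ⟨q.penultimate, fun _ => ⟨q.adj_penultimate hn, ?_⟩⟩
      have h1 : T.dist o q.penultimate ≤ q.dropLast.length := SimpleGraph.dist_le _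
      have h2 : q.dropLast.length + 1 = q.length := Walk.length_dropLast_add_one hn
      have h3 := hT.dist_eq_dist_add_one_of_adj o (q.adj_penultimate hn)
      omega
  choose par hp using hpar
  have hrec : ∀ n : ℕ, ∃ P : V → ℚ, ∀ v, T.dist o v ≤ n → v ≠ o → P v = P (par v) + t (par v) v := by
    intro n
    induction n with
    | zero =>
      refine ⟨fun _ => 0, fun v hv hvo => absurd ?_ hvo⟩
      have h1 : T.dist o v = 0 := by omega
      exact (hT.connected.dist_eq_zero_iff.1 h1).symm
    | succ n ih =>
      obtain ⟨P, hP⟩ := ih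
      refine ⟨fun v => if T.dist o v = n + 1 then P (par v) + t (par v) v else P v, ?_⟩
      intro v hv hvo
      have h1 := (hp v hvo).2
      have h2 : T.dist o (par v) ≠ n + 1 := by omega
      show (if T.dist o v = n + 1 then _ else _) = (if T.dist o (par v) = n + 1 then _ else _) + _
      rw [if_neg h2]
      by_cases h3 : T.dist o v = n + 1
      · rw [if_pos h3]
      · rw [if_neg h3]
        exact hP v (by omega) hvo
  -- a global solution by iteration of the parent map
  let P : V → ℚ := fun v => ∑ i ∈ Finset.range (T.dist o v), t (par^[i + 1] v) (par^[i] v)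
  have hP : ∀ v, v ≠ o → P v = P (par v) + t (par v) v := by
    intro v hv
    have h1 := (hp v hv).2
    show ∑ i ∈ Finset.range (T.dist o v), t (par^[i + 1] v) (par^[i] v) = _
    rw [← h1, Finset.sum_range_succ']
    rfl
  refine ⟨P, ?_⟩
  intro u v huv
  rcases hT.dist_eq_dist_add_one_of_adj o huv with h | h
  · -- `v` is the parent of `u`
    have hu : u ≠ o := by
      rintro rfl
      rw [SimpleGraph.dist_self] at h
      omega
    have h1 : par u = v := Pool.Agent.X201.FJ.Tr.closer_unique hT o u _ _ (hp u hu).1 huv.symm (hp u hu).2 h.symm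
    have h2 := hP u hu
    rw [h1] at h2
    rw [h2, ht v u]
    ring
  · have hv : v ≠ o := by
      rintro rfl
      rw [SimpleGraph.dist_self] at h
      omega
    have h1 : par v = u := Pool.Agent.X201.FJ.Tr.closer_unique hT o v _ _ (hp v hv).1 huv (hp v hv).2 h.symm
    have h2 := hP v hv
    rw [h1] at h2
    exact h2

/-- functions which are constant along edges are constant -/
theorem const_of_adj (hT : T.Connected) (F : V → ℚ) (hF : ∀ u v, T.Adj u v → F u = F v) (u v : V) :
    F u = F v := by
  obtain ⟨w⟩ := hT u v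
  induction w with
  | nil => rfl
  | cons h _ ih => exact (hF _ _ h).trans ih

end pot

section rot

variable {H V : Type} [Group H] [MulAction H V] {T : SimpleGraph V}

/-- **the gluing lemma** -/
theorem exists_rot (hT : T.IsTree) (hadj : ∀ (g : H) (u v : V), T.Adj u v → T.Adj (g • u) (g • v))
    (ρ : H → ℚ) (hconj : ∀ (g h : H) (v : V), h • v = v → ρ (g * h * g⁻¹) = ρ h)
    (hmul : ∀ (g h : H) (v : V), g • v = v → h • v = v → ρ (g * h) = ρ g + ρ h) :
    ∃ R : H →* Multiplicative ℚ, ∀ (h : H) (v : V), h • v = v → (R h).toAdd = ρ h := by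
  classical
  -- representatives of the vertex orbits
  let r : V → V := fun v => (Quotient.out (Quotient.mk (MulAction.orbitRel H V) v))
  have hr1 : ∀ v, ∃ g : H, g • r v = v := by
    intro v
    have h1 : (MulAction.orbitRel H V).r v (r v) := by
      have h2 := Quotient.exact (s := MulAction.orbitRel H V)
        (Quotient.out_eq (Quotient.mk (MulAction.orbitRel H V) v))
      exact (MulAction.orbitRel H V).iseqv.symm h2
    exact MulAction.orbitRel_apply.1 h1
  have hr2 : ∀ (g : H) (v : V), r (g • v) = r v := by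
    intro g v
    have h1 : (Quotient.mk (MulAction.orbitRel H V) (g • v)) = Quotient.mk (MulAction.orbitRel H V) v :=
      Quotient.sound (MulAction.orbitRel_apply.2 ⟨g, rfl⟩)
    show Quotient.out _ = Quotient.out _
    rw [h1]
  choose s hs using hr1
  let c : H → V → ℚ := fun g v => ρ ((s (g • v))⁻¹ * g * s v)
  have hst : ∀ (g : H) (v : V), ((s (g • v))⁻¹ * g * s v) • r v = r v := by
    intro g v
    rw [mul_smul, mul_smul, hs v, inv_smul_eq_iff]
    have h1 := hs (g • v)
    rw [hr2] at h1
    exact h1.symm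
  have hc : ∀ (g h : H) (v : V), c (g * h) v = c g (h • v) + c h v := by
    intro g h v
    show ρ _ = ρ _ + ρ _
    have h1 : (s ((g * h) • v))⁻¹ * (g * h) * s v =
        ((s (g • h • v))⁻¹ * g * s (h • v)) * ((s (h • v))⁻¹ * h * s v) := by
      rw [mul_smul]
      group
    rw [h1]
    refine hmul _ _ (r v) ?_ (hst h v)
    have h2 := hst g (h • v)
    rwa [hr2 h v] at h2
  have hcs : ∀ (k : H) (v : V), k • v = v → c k v = ρ k := by
    intro k v hk
    show ρ _ = _
    rw [hk]
    have h1 := hconj (s v)⁻¹ k v hk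
    rw [inv_inv] at h1
    exact h1
  -- representatives of the orbits of pairs
  let r2 : V × V → V × V := fun e => (Quotient.out (Quotient.mk (MulAction.orbitRel H (V × V)) e))
  have hq1 : ∀ e, ∃ g : H, g • r2 e = e := by
    intro e
    have h1 : (MulAction.orbitRel H (V × V)).r e (r2 e) := by
      have h2 := Quotient.exact (s := MulAction.orbitRel H (V × V))
        (Quotient.out_eq (Quotient.mk (MulAction.orbitRel H (V × V)) e))
      exact (MulAction.orbitRel H (V × V)).iseqv.symm h2
    exact MulAction.orbitRel_apply.1 h1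
  have hq2 : ∀ (g : H) (e : V × V), r2 (g • e) = r2 e := by
    intro g e
    have h1 : (Quotient.mk (MulAction.orbitRel H (V × V)) (g • e)) =
        Quotient.mk (MulAction.orbitRel H (V × V)) e :=
      Quotient.sound (MulAction.orbitRel_apply.2 ⟨g, rfl⟩)
    show Quotient.out _ = Quotient.out _
    rw [h1]
  choose q hq using hq1
  let τ : V → V → ℚ := fun u v => c (q (u, v)) (r2 (u, v)).2 - c (q (u, v)) (r2 (u, v)).1
  have hτ0 : ∀ (g : H) (u v : V), g • r2 (u, v) = (u, v) →
      c g (r2 (u, v)).2 - c g (r2 (u, v)).1 = τ u v := by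
    intro g u v hg
    have h1 : ((q (u, v))⁻¹ * g) • r2 (u, v) = r2 (u, v) := by
      rw [mul_smul, hg, inv_smul_eq_iff, hq]
    have h2 : ((q (u, v))⁻¹ * g) • (r2 (u, v)).1 = (r2 (u, v)).1 := congrArg Prod.fst h1
    have h3 : ((q (u, v))⁻¹ * g) • (r2 (u, v)).2 = (r2 (u, v)).2 := congrArg Prod.snd h1
    have h4 : q (u, v) * ((q (u, v))⁻¹ * g) = g := by group
    have h6 : ∀ w, ((q (u, v))⁻¹ * g) • w = w → c g w = c (q (u, v)) w + ρ ((q (u, v))⁻¹ * g) := by
      intro w hw
      have h7 := hc (q (u, v)) ((q (u, v))⁻¹ * g) w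
      rw [h4, hw, hcs _ _ hw] at h7
      exact h7
    show _ = c (q (u, v)) (r2 (u, v)).2 - c (q (u, v)) (r2 (u, v)).1
    rw [h6 _ h2, h6 _ h3]
    ring
  have hτ : ∀ (h : H) (u v : V), τ (h • u) (h • v) = τ u v + c h v - c h u := by
    intro h u v
    have h0 : r2 (h • u, h • v) = r2 (u, v) := hq2 h (u, v)
    have h1 : (h * q (u, v)) • r2 (h • u, h • v) = (h • u, h • v) := by
      rw [h0, mul_smul, hq]
      rfl
    have h2 := hτ0 _ _ _ h1
    rw [h0, hc, hc] at h2
    have h3 := hq (u, v)
    have h4 : q (u, v) • (r2 (u, v)).1 = u := congrArg Prod.fst h3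
    have h5 : q (u, v) • (r2 (u, v)).2 = v := congrArg Prod.snd h3
    rw [h4, h5] at h2
    rw [← h2]
    show _ = (c (q (u, v)) (r2 (u, v)).2 - c (q (u, v)) (r2 (u, v)).1) + _ - _
    ring
  let t : V → V → ℚ := fun u v => (τ u v - τ v u) / 2
  have ht1 : ∀ u v, t u v = - t v u := fun u v => by
    show (τ u v - τ v u) / 2 = - ((τ v u - τ u v) / 2)
    ring
  have ht2 : ∀ (h : H) (u v : V), t (h • u) (h • v) = t u v + c h v - c h u := by
    intro h u v
    show (τ (h • u) (h • v) - τ (h • v) (h • u)) / 2 = (τ u v - τ v u) / 2 + _ - _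
    rw [hτ, hτ]
    ring
  obtain ⟨P, hP⟩ := exists_pot hT t ht1
  have hPe : ∀ (h : H) (u v : V), P (h • u) - P u - c h u = P (h • v) - P v - c h v := by
    intro h u v
    refine const_of_adj hT.connected (fun u => P (h • u) - P u - c h u) ?_ u v
    intro u v huv
    have h1 := hP u v huv
    have h2 := hP _ _ (hadj h u v huv)
    have h3 := ht2 h u v
    show P (h • u) - P u - c h u = P (h • v) - P v - c h v
    linarith
  obtain ⟨o⟩ := hT.connected.nonempty
  refine ⟨MonoidHom.mk' (fun g => Multiplicative.ofAdd (c g o - (P (g • o) - P o))) ?_, ?_⟩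
  · intro g h
    apply Multiplicative.toAdd.injective
    show c (g * h) o - (P ((g * h) • o) - P o) = (c g o - (P (g • o) - P o)) + (c h o - (P (h • o) - P o))
    rw [hc, mul_smul]
    have h1 := hPe g (h • o) o
    linarith
  · intro h v hv
    show c h o - (P (h • o) - P o) = ρ h
    have h1 := hPe h o v
    rw [hv, hcs h v hv] at h1
    linarith

end rot

end Pool.Agent.X265.GBS
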