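import Mathlib
import Pool.Agent.X265.GBS.Rot
import Pool.Agent.X201.RA.Virt

/-!
# Groups acting on trees with commensurable torsion-free abelian vertex stabilizers

If the elements of a subgroup `H` centralize powers of all elliptic elements, then `[H, H]` acts freely on the
tree. If the vertex stabilizers have rank one, this applies to `H = N'`.
-/

set_option autoImplicit false

namespace Pool.Agent.X265.GBS

open SimpleGraph
open Pool.Agent.X201.FJ Pool.Agent.X201.RA
open scoped commutatorElement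

/-- characters of torsion-free abelian groups -/
theorem exists_char {A : Type} [Group A] (hab : ∀ a b : A, a * b = b * a) (k : A)
    (hk : ∀ m : ℤ, k ^ m = 1 → m = 0) : ∃ f : A → ℚ, (∀ a b, f (a * b) = f a + f b) ∧ f k = 1 := by
  letI : CommGroup A := { (inferInstance : Group A) with mul_comm := hab }
  let i : ℤ →ₗ[ℤ] Additive A := LinearMap.toSpanSingleton ℤ (Additive A) (Additive.ofMul k)
  have hi : Function.Injective i := by
    rw [← LinearMap.ker_eq_bot, LinearMap.ker_eq_bot']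
    intro m hm
    apply hk
    have h1 : m • (Additive.ofMul k) = 0 := hm
    rw [← ofMul_zpow] at h1
    exact Additive.ofMul.injective h1
  obtain ⟨h, hh⟩ := (Module.Baer.of_divisible ℚ).extension_property i hi (LinearMap.toSpanSingleton ℤ ℚ 1)
  refine ⟨fun a => h (Additive.ofMul a), fun a b => ?_, ?_⟩
  · exact h.map_add (Additive.ofMul a) (Additive.ofMul b)
  · have h1 := LinearMap.congr_fun hh 1
    rw [LinearMap.comp_apply, LinearMap.toSpanSingleton_apply, LinearMap.toSpanSingleton_apply, one_smul,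
      one_smul] at h1
    exact h1

section one

variable {N V : Type} [Group N] [MulAction N V] {T : SimpleGraph V}

/-- The group `N` acts on the tree `T` without inversions; the vertex stabilizers are torsion-free abelian and
the edge stabilizers contain nonzero powers of all elements of the adjacent vertex stabilizers. -/
structure Act (N V : Type) [Group N] [MulAction N V] (T : SimpleGraph V) : Prop where
  tree : T.IsTree
  adj : ∀ (g : N) (u v : V), T.Adj u v → T.Adj (g • u) (g • v)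
  noinv : ∀ (g : N) (u v : V), T.Adj u v → ¬ (g • u = v ∧ g • v = u)
  comm : ∀ (v : V) (y z : N), y • v = v → z • v = v → y * z = z * y
  tf : ∀ (v : V) (y : N), y • v = v → y ≠ 1 → ∀ m : ℤ, y ^ m = 1 → m = 0
  full : ∀ (u v : V), T.Adj u v → ∀ y : N, y • v = v → ∃ m : ℤ, m ≠ 0 ∧ (y ^ m) • u = u

/-- powers of elliptic elements fix any vertex -/
theorem Act.all (h : Act N V T) (u : V) {y : N} {v : V} (hy : y • v = v) :
    ∃ m : ℤ, m ≠ 0 ∧ (y ^ m) • u = u := by
  have key : ∀ u v : V, T.Walk u v → ∀ y : N, y • v = v → ∃ m : ℤ, m ≠ 0 ∧ (y ^ m) • u = u := by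
    intro u v w
    induction w with
    | nil => exact fun y hy => ⟨1, one_ne_zero, by rwa [zpow_one]⟩
    | cons hadj _ ih =>
      intro y hy
      obtain ⟨m, hm, h1⟩ := ih y hy
      obtain ⟨p, hp, h2⟩ := h.full _ _ hadj _ h1
      exact ⟨m * p, mul_ne_zero hm hp, by rwa [zpow_mul]⟩
  obtain ⟨w⟩ := h.tree.connected u v
  exact key u v w y hy

/-- **commutator subgroups act freely** -/
theorem Act.free (h : Act N V T) (H : Subgroup N)
    (hH : ∀ g ∈ H, ∀ (v : V) (y : N), y • v = v → ∃ m : ℤ, m ≠ 0 ∧ g * y ^ m * g⁻¹ = y ^ m)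
    (k : N) (hk : k ∈ ⁅H, H⁆) (u : V) (hku : k • u = u) : k = 1 := by
  classical
  by_contra hk1
  -- a character of the stabilizer of `u`
  obtain ⟨lam, hlam, hlk⟩ := exists_char (A := MulAction.stabilizer N u)
    (fun a b => Subtype.ext (h.comm u a b a.2 b.2)) ⟨k, hku⟩
    (fun m hm => h.tf u k hku hk1 m (congrArg Subtype.val hm))
  have hlz : ∀ (a : MulAction.stabilizer N u) (n : ℤ), lam (a ^ n) = n * lam a := by
    intro a n
    let F : MulAction.stabilizer N u →* Multiplicative ℚ :=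
      MonoidHom.mk' (fun a => Multiplicative.ofAdd (lam a)) (fun a b => by rw [hlam]; rfl)
    have h1 := congrArg Multiplicative.toAdd (map_zpow F a n)
    rw [toAdd_zpow, zsmul_eq_mul] at h1
    exact h1
  -- rotation numbers
  let E : N → ℚ → Prop := fun y r => ∃ (m : ℤ) (z : MulAction.stabilizer N u), m ≠ 0 ∧ y ^ m = z ∧ lam z = r * m
  have hEe : ∀ (y : N) (v : V), y • v = v → ∃ r, E y r := by
    intro y v hy
    obtain ⟨m, hm, h1⟩ := h.all u hy
    have h3 : (m : ℚ) ≠ 0 := by exact_mod_cast hm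
    exact ⟨lam ⟨y ^ m, h1⟩ / m, m, ⟨y ^ m, h1⟩, hm, rfl, by field_simp⟩
  have hEu : ∀ y r r', E y r → E y r' → r = r' := by
    rintro y r r' ⟨p, z, hp, h1, h2⟩ ⟨p', z', hp', h1', h2'⟩
    have h3 : z ^ p' = z' ^ p := by
      apply Subtype.ext
      show (z : N) ^ p' = (z' : N) ^ p
      rw [← h1, ← h1', ← zpow_mul, ← zpow_mul, mul_comm]
    have h4 := congrArg lam h3
    rw [hlz, hlz, h2, h2'] at h4
    have h6 : (p : ℚ) ≠ 0 := by exact_mod_cast hp
    have h7 : (p' : ℚ) ≠ 0 := by exact_mod_cast hp'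
    have h8 : (r - r') * ((p : ℚ) * p') = 0 := by linear_combination h4
    rcases mul_eq_zero.1 h8 with h9 | h9
    · linarith
    · exact absurd h9 (mul_ne_zero h6 h7)
  let ρ : N → ℚ := fun y => if hh : ∃ r, E y r then hh.choose else 0
  have hρ : ∀ y r, E y r → ρ y = r := by
    intro y r hy
    have hh : ∃ r, E y r := ⟨r, hy⟩
    have h1 : ρ y = hh.choose := dif_pos hh
    rw [h1]
    exact hEu _ _ _ hh.choose_spec hy
  obtain ⟨R, hR⟩ := exists_rot (H := H) h.tree (fun g u v huv => h.adj (g : N) u v huv)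
    (fun y => ρ (y : N)) (by
      rintro ⟨g, hg⟩ ⟨y, hy'⟩ v hy
      have hy : y • v = v := hy
      obtain ⟨r, hr⟩ := hEe y v hy
      show ρ (g * y * g⁻¹) = ρ y
      rw [hρ y r hr]
      apply hρ
      obtain ⟨m, z, hm, h1, h2⟩ := hr
      obtain ⟨p, hp, h3⟩ := hH g hg u z z.2
      refine ⟨m * p, z ^ p, mul_ne_zero hm hp, ?_, ?_⟩
      · rw [conj_zpow, zpow_mul, h1, h3]
        rfl
      · rw [hlz, h2]
        push_cast
        ring) (by
      rintro ⟨y, hy'⟩ ⟨z, hz'⟩ v hy hz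
      have hy : y • v = v := hy
      have hz : z • v = v := hz
      obtain ⟨r, hr⟩ := hEe y v hy
      obtain ⟨r', hr'⟩ := hEe z v hz
      show ρ (y * z) = ρ y + ρ z
      rw [hρ y r hr, hρ z r' hr']
      apply hρ
      obtain ⟨m, a, hm, h1, h2⟩ := hr
      obtain ⟨m', a', hm', h1', h2'⟩ := hr'
      refine ⟨m * m', a ^ m' * a' ^ m, mul_ne_zero hm hm', ?_, ?_⟩
      · rw [(show Commute y z from h.comm v y z hy hz).mul_zpow, zpow_mul, h1, mul_comm m m', zpow_mul z, h1']
        rfl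
      · rw [hlam, hlz, hlz, h2, h2']
        push_cast
        ring)
  -- the element `k` has rotation number zero
  have hle : ⁅H, H⁆ ≤ R.ker.map H.subtype := by
    rw [Subgroup.commutator_le]
    intro a ha b hb
    refine ⟨⁅(⟨a, ha⟩ : H), (⟨b, hb⟩ : H)⁆, ?_, rfl⟩
    show R ⁅_, _⁆ = 1
    rw [map_commutatorElement]
    exact commutatorElement_eq_one_iff_mul_comm.2 (mul_comm _ _)
  obtain ⟨⟨k', hk'⟩, hRk, hkk⟩ := hle hk
  have hkk : k' = k := hkk
  subst hkk
  have h1 := hR ⟨k', hk'⟩ u hku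
  have h2 : R ⟨k', hk'⟩ = 1 := hRk
  rw [h2, toAdd_one] at h1
  have h3 : ρ k' = 1 := hρ _ _ ⟨1, ⟨k', hku⟩, one_ne_zero, by rw [zpow_one], by rw [hlk]; norm_num⟩
  have h4 : (0 : ℚ) = ρ k' := h1
  rw [h3] at h4
  exact zero_ne_one h4

/-- commutator subgroups are free -/
theorem Act.isFree (h : Act N V T) (H : Subgroup N)
    (hH : ∀ g ∈ H, ∀ (v : V) (y : N), y • v = v → ∃ m : ℤ, m ≠ 0 ∧ g * y ^ m * g⁻¹ = y ^ m) :
    IsFreeGroup (⁅H, H⁆ : Subgroup N) := by
  obtain ⟨X, f, hf⟩ := Tr.free_of_tree (N := N) h.tree h.adj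
    (fun g u h1 h3 => h.noinv g u (g • u) h1 ⟨rfl, h3⟩) ⁅H, H⁆ (h.free H hH)
  exact isFree_of_inj f hf

/-- **rank one**: the derived subgroup centralizes powers of all elliptic elements -/
theorem Act.rank_one (h : Act N V T)
    (hro : ∀ (v : V) (y z : N), y • v = v → z • v = v → y ≠ 1 → ∃ m n : ℤ, m ≠ 0 ∧ z ^ m = y ^ n) :
    ∀ g ∈ commutator N, ∀ (v : V) (y : N), y • v = v → ∃ m : ℤ, m ≠ 0 ∧ g * y ^ m * g⁻¹ = y ^ m := by
  classical
  intro g0 hg0 u x hx
  by_cases hx1 : x = 1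
  · exact ⟨1, one_ne_zero, by rw [hx1]; simp⟩
  have hinj : ∀ a b : ℤ, x ^ a = x ^ b → a = b := by
    intro a b hab
    have h1 : x ^ (a - b) = 1 := by rw [zpow_sub, hab, mul_inv_cancel]
    have h2 := h.tf u x hx hx1 _ h1
    omega
  have hall : ∀ (v : V) (y : N), y • v = v → ∃ m n : ℤ, m ≠ 0 ∧ y ^ m = x ^ n := by
    intro v y hy
    obtain ⟨m, hm, h1⟩ := h.all u hy
    obtain ⟨p, n, hp, h2⟩ := hro u x (y ^ m) hx h1 hx1
    exact ⟨m * p, n, mul_ne_zero hm hp, by rw [zpow_mul, h2]⟩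
  -- the modular homomorphism
  let D : N → ℚ → Prop := fun g r => ∃ p q : ℤ, p ≠ 0 ∧ g * x ^ p * g⁻¹ = x ^ q ∧ (q : ℚ) = r * p
  have hDe : ∀ g, ∃ r, D g r := by
    intro g
    have h1 : (g * x * g⁻¹) • (g • u) = g • u := by
      rw [← mul_smul]
      have h2 : g * x * g⁻¹ * g = g * x := by group
      rw [h2, mul_smul, hx]
    obtain ⟨m, n, hm, hmn⟩ := hall (g • u) _ h1
    rw [conj_zpow] at hmn
    refine ⟨n / m, m, n, hm, hmn, ?_⟩
    have h3 : (m : ℚ) ≠ 0 := by exact_mod_cast hm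
    field_simp
  have hDu : ∀ g r r', D g r → D g r' → r = r' := by
    rintro g r r' ⟨p, q, hp, h1, h2⟩ ⟨p', q', hp', h1', h2'⟩
    have h3 : x ^ (q * p') = x ^ (q' * p) := by
      rw [zpow_mul, zpow_mul, ← h1, ← h1', conj_zpow, conj_zpow, ← zpow_mul, ← zpow_mul, mul_comm p p']
    have h4 := hinj _ _ h3
    have h5 : (q : ℚ) * p' = q' * p := by exact_mod_cast h4
    rw [h2, h2'] at h5
    have h6 : (p : ℚ) ≠ 0 := by exact_mod_cast hp
    have h7 : (p' : ℚ) ≠ 0 := by exact_mod_cast hp'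
    have h8 : (r - r') * ((p : ℚ) * p') = 0 := by linear_combination h5
    rcases mul_eq_zero.1 h8 with h9 | h9
    · linarith
    · exact absurd h9 (mul_ne_zero h6 h7)
  have hDm : ∀ g r g' r', D g r → D g' r' → D (g * g') (r * r') := by
    rintro g r g' r' ⟨p, q, hp, h1, h2⟩ ⟨p', q', hp', h1', h2'⟩
    refine ⟨p' * p, q * q', mul_ne_zero hp' hp, ?_, ?_⟩
    · have h3 : g * g' * x ^ (p' * p) * (g * g')⁻¹ = g * (g' * x ^ p' * g'⁻¹) ^ p * g⁻¹ := by
        rw [conj_zpow, ← zpow_mul]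
        group
      rw [h3, h1', ← zpow_mul, mul_comm q' p, zpow_mul, ← conj_zpow, h1, ← zpow_mul]
    · push_cast
      rw [h2, h2']
      ring
  have hD1 : D 1 1 := ⟨1, 1, one_ne_zero, by group, by norm_num⟩
  choose dl hdl using hDe
  let Δ : N →* ℚ := {
    toFun := dl
    map_one' := hDu 1 _ _ (hdl 1) hD1
    map_mul' := fun g g' => hDu _ _ _ (hdl (g * g')) (hDm _ _ _ _ (hdl g) (hdl g')) }
  have h1 : g0 ∈ (Δ.toHomUnits).ker := Abelianization.commutator_subset_ker _ hg0
  have h2 : dl g0 = 1 := congrArg Units.val (MonoidHom.mem_ker.1 h1)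
  obtain ⟨p, q, hp, h3, h4⟩ := hdl g0
  rw [h2, one_mul] at h4
  have h5 : q = p := by exact_mod_cast h4
  rw [h5] at h3
  exact ⟨p, hp, h3⟩

end one

section cls

variable {C : ∀ (G : Type) [Group G], Prop}

/-- abelian layers -/
theorem step_abel (hC : KerClosed C) {G : Type} [Group G] (A B : Subgroup G) [A.Normal] [B.Normal]
    (hBA : B ≤ A) (hab : ⁅A, A⁆ ≤ B) (hQ : C (G ⧸ A)) : C (G ⧸ B) := by
  have hn : (A.map (QuotientGroup.mk' B)).Normal :=
    Subgroup.Normal.map inferInstance _ (QuotientGroup.mk'_surjective _)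
  refine hC.abel (G ⧸ B) (A.map (QuotientGroup.mk' B)) ?_ ?_
  · rintro _ ⟨a, ha, rfl⟩ _ ⟨c, hc, rfl⟩
    rw [← map_mul, ← map_mul]
    show ((a * c : G) : G ⧸ B) = ((c * a : G) : G ⧸ B)
    rw [QuotientGroup.eq]
    have h1 : (a * c)⁻¹ * (c * a) = ⁅c⁻¹, a⁻¹⁆ := by
      rw [commutatorElement_def]
      group
    rw [h1]
    exact hab (Subgroup.commutator_mem_commutator (inv_mem hc) (inv_mem ha))
  · exact hC.sub _ _ (QuotientGroup.quotientQuotientEquivQuotient B A hBA).toMonoidHom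
      (QuotientGroup.quotientQuotientEquivQuotient B A hBA).injective hQ

/-- the derived series of a subgroup -/
def DS {G : Type} [Group G] (A : Subgroup G) : ℕ → Subgroup G
  | 0 => A
  | n + 1 => ⁅DS A n, DS A n⁆

theorem DS_normal {G : Type} [Group G] (A : Subgroup G) (hA : A.Normal) : ∀ n, (DS A n).Normal
  | 0 => hA
  | n + 1 => by
    have h1 := DS_normal A hA n
    show (⁅DS A n, DS A n⁆ : Subgroup G).Normal
    infer_instance

theorem DS_map {G H : Type} [Group G] [Group H] (f : H →* G) (A : Subgroup H) : ∀ n,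
    (DS A n).map f = DS (A.map f) n
  | 0 => rfl
  | n + 1 => by
    show (⁅DS A n, DS A n⁆ : Subgroup H).map f = ⁅DS (A.map f) n, DS (A.map f) n⁆
    rw [Subgroup.map_commutator, DS_map f A n]

theorem DS_derived {A : Type} [Group A] : ∀ n, DS (⊤ : Subgroup A) n = derivedSeries A n
  | 0 => rfl
  | n + 1 => by
    rw [derivedSeries_succ, ← DS_derived n]
    rfl

theorem DS_sub {G : Type} [Group G] (A : Subgroup G) (n : ℕ) :
    (derivedSeries A n).map A.subtype = DS A n := by
  rw [← DS_derived, DS_map, ← MonoidHom.range_eq_map, Subgroup.range_subtype]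

/-- normal kernels with a free term of the derived series -/
theorem chain (hC : KerClosed C) {G : Type} [Group G] (A : Subgroup G) (hA : A.Normal) (n : ℕ)
    (hfree : IsFreeGroup (DS A n)) (hQ : C (G ⧸ A)) : C G := by
  have h1 : ∀ n, ∀ (_ : (DS A n).Normal), C (G ⧸ DS A n) := by
    intro n
    induction n with
    | zero => intro _; exact hQ
    | succ n ih =>
      intro hn
      have h2 := DS_normal A hA n
      have h3 : C (G ⧸ DS A n) := ih h2
      exact step_abel hC (DS A n) (DS A (n + 1)) (Subgroup.commutator_le_left _ _) le_rfl h3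
  have h2 := DS_normal A hA n
  exact hC.free G (DS A n) hfree (h1 n h2)

end cls

end Pool.Agent.X265.GBS
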