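import Mathlib
import Pool.Agent.X265.GBS.Core

/-!
# Extensions whose kernel is virtually a group with a free term of the derived series
-/

set_option autoImplicit false

namespace Pool.Agent.X265.GBS

open Pool.Agent.X201.FJ Pool.Agent.X201.RA

variable {C : ∀ (G : Type) [Group G], Prop}

/-- **the virtual version** -/
theorem chain_virt (hC : KerClosed C) {G : Type} [Group G] (A N : Subgroup G) [hN : N.Normal]
    (hAN : A ≤ N) (hfi : A.relIndex N ≠ 0) (hfg : Group.FG N) (n : ℕ)
    (hfree : IsFreeGroup (DS A n)) (hQ : C (G ⧸ N)) : C G := by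
  classical
  let G1 : Subgroup G := Subgroup.normalizer (A : Set G)
  refine hC.fin G G1 (norm_fi A N hAN hfi hfg) ?_
  have hA1 : A ≤ G1 := Subgroup.le_normalizer
  let A1 : Subgroup G1 := A.subgroupOf G1
  have hA1n : A1.Normal := Subgroup.normal_in_normalizer
  have hmapA : A1.map G1.subtype = A := Subgroup.map_subgroupOf_eq_of_le hA1
  have hmap : (DS A1 n).map G1.subtype = DS A n := by
    rw [DS_map, hmapA]
  have hf1 : IsFreeGroup (DS A1 n) := by
    have h1 : IsFreeGroup ((DS A1 n).map G1.subtype) := by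
      rw [hmap]
      exact hfree
    exact IsFreeGroup.ofMulEquiv ((DS A1 n).equivMapOfInjective G1.subtype G1.subtype_injective).symm
  refine chain hC A1 hA1n n hf1 ?_
  -- the finite kernel
  let N1 : Subgroup G1 := N.subgroupOf G1
  have hN1 : N1.Normal := inferInstance
  have hle : A1 ≤ N1 := fun x hx => hAN hx
  let F : Subgroup (G1 ⧸ A1) := N1.map (QuotientGroup.mk' A1)
  have hFn : F.Normal := Subgroup.Normal.map hN1 _ (QuotientGroup.mk'_surjective _)
  have hfin : Finite F := by
    have h1 : Finite (N ⧸ A.subgroupOf N) := by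
      have h2 : (A.subgroupOf N).FiniteIndex := ⟨hfi⟩
      infer_instance
    have h2 : ∀ y : F, ∃ n : N1, ((n : G1) : G1 ⧸ A1) = y := by
      rintro ⟨_, n, hn, rfl⟩
      exact ⟨⟨n, hn⟩, rfl⟩
    choose r hr using h2
    refine Finite.of_injective (fun y : F => (((⟨((r y : G1) : G), (r y).2⟩ : N)) :
      N ⧸ A.subgroupOf N)) ?_
    intro y z hyz
    have h3 := QuotientGroup.eq.1 hyz
    apply Subtype.ext
    rw [← hr y, ← hr z, QuotientGroup.eq]
    exact h3
  refine fin_ker hC F ?_
  refine hC.sub _ _ (QuotientGroup.quotientQuotientEquivQuotient A1 N1 hle).toMonoidHom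
    (QuotientGroup.quotientQuotientEquivQuotient A1 N1 hle).injective ?_
  refine hC.sub _ _ (QuotientGroup.lift N1 ((QuotientGroup.mk' N).comp G1.subtype) ?_) ?_ hQ
  · intro z hz
    exact (QuotientGroup.eq_one_iff _).2 hz
  · rw [injective_iff_map_eq_one]
    intro q hq
    obtain ⟨z, rfl⟩ := QuotientGroup.mk_surjective q
    have h1 : ((z : G) : G ⧸ N) = 1 := hq
    have h2 : (z : G) ∈ N := (QuotientGroup.eq_one_iff _).1 h1
    exact (QuotientGroup.eq_one_iff _).2 h2

/-- the modular homomorphism of the action has soluble image: the elements of a term of the derived series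
centralize powers of all elements of the vertex stabilizers -/
def SolMod (A V : Type) [Group A] [MulAction A V] : Prop :=
  ∃ d : ℕ, ∀ g ∈ derivedSeries A d, ∀ (v : V) (y : A), y • v = v →
    ∃ m : ℤ, m ≠ 0 ∧ g * y ^ m * g⁻¹ = y ^ m

/-- the vertex stabilizers have rank at most one -/
def RankOne (A V : Type) [Group A] [MulAction A V] : Prop :=
  ∀ (v : V) (y z : A), y • v = v → z • v = v → y ≠ 1 → ∃ m n : ℤ, m ≠ 0 ∧ z ^ m = y ^ n

theorem solMod_of_rankOne {A V : Type} [Group A] [MulAction A V] {T : SimpleGraph V} (h : Act A V T)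
    (hr : RankOne A V) : SolMod A V := by
  refine ⟨1, ?_⟩
  intro g hg
  rw [derivedSeries_one] at hg
  exact h.rank_one hr g hg

/-- **main theorem** -/
theorem gbs_main (hC : KerClosed C) {G : Type} [Group G] (N A : Subgroup G) [hN : N.Normal]
    (hA : A = N ∨ (A ≤ N ∧ A.relIndex N ≠ 0 ∧ Group.FG N)) {V : Type} [MulAction A V]
    {T : SimpleGraph V} (h : Act A V T) (hs : SolMod A V) (hQ : C (G ⧸ N)) : C G := by
  obtain ⟨d, hd⟩ := hs
  have h1 : IsFreeGroup (⁅derivedSeries A d, derivedSeries A d⁆ : Subgroup A) := h.isFree _ hd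
  have h1' : IsFreeGroup (derivedSeries A (d + 1)) := h1
  have h2 : IsFreeGroup (DS A (d + 1)) := by
    rw [← DS_sub]
    exact IsFreeGroup.ofMulEquiv ((derivedSeries A (d + 1)).equivMapOfInjective A.subtype
      A.subtype_injective)
  rcases hA with rfl | ⟨hAN, hfi, hfg⟩
  · exact chain hC A hN (d + 1) h2 hQ
  · exact chain_virt hC A N hAN hfi hfg (d + 1) h2 hQ

end Pool.Agent.X265.GBS
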